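import Pool.Agent.TH133.PW.CasB
import Pool.Agent.N164.KC.Block

/-!
# Ranks of rational forms over a larger field, and projectors from traces
-/

set_option autoImplicit false

namespace Pool.Agent.N164.NC

open Pool.Agent.R907 Pool.Agent.N164.KC

/-- The rank of a form with values in `K` on a set: the dimension over `K` of the space of functions spanned by the
functions `b ↦ β a b`. -/
noncomputable def rk {K A : Type*} [Field K] (β : A → A → K) : ℕ :=
  Module.finrank K (Submodule.span K (Set.range β))

section Cast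

variable {K : Type*} [Field K] [CharZero K]

lemma indep_cast {ι E : Type*} {v : ι → E → ℚ} (hv : LinearIndependent ℚ v) :
    LinearIndependent K (fun i (e : E) => (v i e : K)) := by
  rw [linearIndependent_iff'] at hv ⊢
  intro s g hg i hi
  apply (Module.forall_dual_apply_eq_zero_iff ℚ (g i)).1
  intro φ
  apply hv s (fun j => φ (g j)) _ i hi
  funext e
  rw [Finset.sum_apply, Pi.zero_apply]
  have h1 := congrFun hg e
  rw [Finset.sum_apply, Pi.zero_apply] at h1
  have h2 := congrArg φ h1
  rw [map_sum, map_zero] at h2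
  refine Eq.trans (Finset.sum_congr rfl fun j _ => ?_) h2
  simp only [Pi.smul_apply, smul_eq_mul]
  have : g j * (v j e : K) = (v j e) • g j := by rw [Rat.smul_def, mul_comm]
  rw [this, map_smul, smul_eq_mul, mul_comm]

/-- The dimension of a space of rational functions is the dimension of its span over `K`. -/
lemma finrank_cast {E : Type*} (D : Submodule ℚ (E → ℚ)) :
    Module.finrank ℚ D = Module.finrank K
      (Submodule.span K ((fun (u : E → ℚ) (e : E) => (u e : K)) '' (D : Set (E → ℚ)))) := by
  obtain ⟨b, hb⟩ : ∃ b : Module.Basis _ ℚ D, b = Module.Basis.ofVectorSpace ℚ D := ⟨_, rfl⟩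
  have hv : LinearIndependent ℚ (fun i => (b i : E → ℚ)) :=
    b.linearIndependent.map' D.subtype (Submodule.ker_subtype D)
  have hK : LinearIndependent K (fun i (e : E) => ((b i : E → ℚ) e : K)) := indep_cast hv
  have hspan : Submodule.span K ((fun (u : E → ℚ) (e : E) => (u e : K)) '' (D : Set (E → ℚ))) =
      Submodule.span K (Set.range fun i (e : E) => ((b i : E → ℚ) e : K)) := by
    apply le_antisymm
    · rw [Submodule.span_le]
      rintro _ ⟨u, hu, rfl⟩
      have hu' : u ∈ Submodule.span ℚ (Set.range fun i => (b i : E → ℚ)) := by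
        have h1 : (⟨u, hu⟩ : D) ∈ Submodule.span ℚ (Set.range b) := by
          rw [b.span_eq]; trivial
        have h2 := Submodule.mem_map_of_mem (f := D.subtype) h1
        rw [Submodule.map_span, ← Set.range_comp] at h2
        exact h2
      change (fun e : E => (u e : K)) ∈ _
      induction hu' using Submodule.span_induction with
      | mem x hx =>
        obtain ⟨i, rfl⟩ := hx
        exact Submodule.subset_span ⟨i, rfl⟩
      | zero =>
        have : (fun e : E => (((0 : E → ℚ) e : ℚ) : K)) = 0 := by
          funext e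
          simp
        rw [this]
        exact Submodule.zero_mem _
      | add x y hx' hy' hx hy =>
        have h3 : (fun e : E => (((x + y) e : ℚ) : K)) = (fun e => (x e : K)) + fun e => (y e : K) := by
          funext e
          simp
        rw [h3]
        have hx1 : x ∈ D := by
          have : Submodule.span ℚ (Set.range fun i => (b i : E → ℚ)) ≤ D := by
            rw [Submodule.span_le]
            rintro _ ⟨i, rfl⟩
            exact (b i).2
          exact this hx'
        have hy1 : y ∈ D := by
          have : Submodule.span ℚ (Set.range fun i => (b i : E → ℚ)) ≤ D := by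
            rw [Submodule.span_le]
            rintro _ ⟨i, rfl⟩
            exact (b i).2
          exact this hy'
        exact Submodule.add_mem _ (hx hx1) (hy hy1)
      | smul c x hx' hx =>
        have h3 : (fun e : E => (((c • x) e : ℚ) : K)) = (c : K) • fun e => (x e : K) := by
          funext e
          simp
        rw [h3]
        have hx1 : x ∈ D := by
          have : Submodule.span ℚ (Set.range fun i => (b i : E → ℚ)) ≤ D := by
            rw [Submodule.span_le]
            rintro _ ⟨i, rfl⟩
            exact (b i).2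
          exact this hx'
        exact Submodule.smul_mem _ _ (hx hx1)
    · apply Submodule.span_mono
      rintro _ ⟨i, rfl⟩
      exact ⟨_, (b i).2, rfl⟩
  rw [hspan, Module.finrank_eq_nat_card_basis b, Module.finrank_eq_nat_card_basis (Module.Basis.span hK)]

/-- The rank of a rational form. -/
lemma rk_cast {A : Type*} [AddCommGroup A] [Module ℚ A] (B : A →ₗ[ℚ] (A → ℚ)) :
    rk (fun f g : A => (B f g : K)) = Module.finrank ℚ (A ⧸ LinearMap.ker B) := by
  have h : (Set.range fun f g : A => (B f g : K)) =
      (fun (u : A → ℚ) (e : A) => (u e : K)) '' (LinearMap.range B : Set (A → ℚ)) := by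
    ext u
    constructor
    · rintro ⟨f, rfl⟩
      exact ⟨B f, ⟨f, rfl⟩, rfl⟩
    · rintro ⟨_, ⟨f, rfl⟩, rfl⟩
      exact ⟨f, rfl⟩
  rw [LinearEquiv.finrank_eq B.quotKerEquivRange, finrank_cast (K := K) (LinearMap.range B), rk, h]

end Cast

section Proj

variable {K : Type*} [Field K] {V : Type*} [AddCommGroup V] [Module K V]

/-- **The projector from traces.** -/
theorem proj_mem [CharZero K] [Module.Finite K V] {S : Set (Module.End K V)}
    (h1 : (1 : Module.End K V) ∈ Submodule.span K S)
    (hmul : ∀ a ∈ Submodule.span K S, ∀ b ∈ Submodule.span K S, a * b ∈ Submodule.span K S)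
    {P : Module.End K V} (hP : P * P = P) (hc : ∀ b ∈ Submodule.span K S, Commute P b)
    {a : Module.End K V} (ha : a ∈ Submodule.span K S)
    (h : ∀ b ∈ S, LinearMap.trace K V (a * b * P) = LinearMap.trace K V (b * P) ∧
      LinearMap.trace K V (a * b * (1 - P)) = 0) : P ∈ Submodule.span K S := by
  have hs : ∀ b ∈ Submodule.span K S, LinearMap.trace K V (a * b * P) = LinearMap.trace K V (b * P) ∧
      LinearMap.trace K V (a * b * (1 - P)) = 0 := by
    intro b hb
    induction hb using Submodule.span_induction with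
    | mem y hy => exact h y hy
    | zero => simp
    | add x y _ _ hx hy =>
      refine ⟨?_, ?_⟩
      · rw [mul_add, add_mul, map_add, hx.1, hy.1, add_mul, map_add]
      · rw [mul_add, add_mul, map_add, hx.2, hy.2, add_zero]
    | smul c x _ hx =>
      refine ⟨?_, ?_⟩
      · rw [mul_smul_comm, smul_mul_assoc, map_smul, hx.1, smul_mul_assoc, map_smul]
      · rw [mul_smul_comm, smul_mul_assoc, map_smul, hx.2, smul_zero]
  have hpow : ∀ b ∈ Submodule.span K S, ∀ r : ℕ, b ^ r ∈ Submodule.span K S := by
    intro b hb r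
    induction r with
    | zero => rw [pow_zero]; exact h1
    | succ r ih => rw [pow_succ]; exact hmul _ ih _ hb
  have he : 1 - a ∈ Submodule.span K S := Submodule.sub_mem _ h1 ha
  obtain ⟨N, hN⟩ : ∃ N, N = Module.finrank K V := ⟨_, rfl⟩
  have hP' : (1 - P) * (1 - P) = 1 - P := by rw [mul_sub, sub_mul, sub_mul, hP]; simp
  have hS : P * (1 - a) ^ N = 0 := by
    refine nil_of_traces hP (hc _ he) (fun r => ?_) hN.ge
    rw [LinearMap.trace_mul_comm, pow_succ', sub_mul, sub_mul, map_sub, one_mul,
      (hs _ (hpow _ he r)).1, sub_self]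
  have hS' : (1 - P) * a ^ N = 0 := by
    refine nil_of_traces hP' ((Commute.one_left _).sub_left (hc _ ha)) (fun r => ?_) hN.ge
    rw [LinearMap.trace_mul_comm, pow_succ', (hs _ (hpow _ ha r)).2]
  rw [← approx_eq (add_sub_cancel P 1) hS hS']
  exact Submodule.sub_mem _ h1 (hpow _ (Submodule.sub_mem _ h1 (hpow _ ha N)) N)

/-- The ranks of two complementary trace forms. -/
theorem two_forms [CharZero K] [Module.Finite K V] {S : Set (Module.End K V)}
    (h1 : (1 : Module.End K V) ∈ Submodule.span K S)
    (hmul : ∀ a ∈ Submodule.span K S, ∀ b ∈ Submodule.span K S, a * b ∈ Submodule.span K S)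
    {P : Module.End K V} (hP : P * P = P) (hc : ∀ b ∈ Submodule.span K S, Commute P b) :
    formRank (P - (1 - P)) S ≤ formRank P S + formRank (1 - P) S ∧
      (formRank (P - (1 - P)) S = formRank P S + formRank (1 - P) S ↔ P ∈ Submodule.span K S) := by
  classical
  obtain ⟨Q, hQ⟩ : ∃ Q : ℕ → Module.End K V, Q = fun j => if j = 0 then P else if j = 1 then 1 - P else 0 :=
    ⟨_, rfl⟩
  obtain ⟨c, hcd⟩ : ∃ c : ℕ → K, c = fun j => if j = 1 then -1 else 1 := ⟨_, rfl⟩
  have hQ0 : Q 0 = P := by rw [hQ]; simp
  have hQ1 : Q 1 = 1 - P := by rw [hQ]; simp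
  have hQ2 : ∀ j, 2 ≤ j → Q j = 0 := by
    intro j hj
    rw [hQ]
    simp only
    rw [if_neg (by omega), if_neg (by omega)]
  have hc0 : c 0 = 1 := by rw [hcd]; simp
  have hc1 : c 1 = -1 := by rw [hcd]; simp
  have hcne : ∀ j, c j ≠ 0 := by
    intro j
    rw [hcd]
    simp only
    split_ifs <;> norm_num
  have hsum : P - (1 - P) = ∑ j ∈ Finset.range 2, c j • Q j := by
    rw [Finset.sum_range_succ, Finset.sum_range_one, hc0, hc1, hQ0, hQ1, one_smul, neg_smul, one_smul,
      sub_eq_add_neg P (1 - P)]
  have hr : ∑ j ∈ Finset.range 2, formRank (Q j) S = formRank P S + formRank (1 - P) S := by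
    rw [Finset.sum_range_succ, Finset.sum_range_one, hQ0, hQ1]
  rw [← hr]
  have hP' : (1 - P) * (1 - P) = 1 - P := by rw [mul_sub, sub_mul, sub_mul, hP]; simp
  refine ⟨formRank_le_sum Q S 2 c hsum, fun h => ?_, fun h => ?_⟩
  · obtain ⟨a, ha, ha2⟩ := exists_joint Q S 2 c hsum h (fun j => if j = 0 then 1 else 0) (fun j => by
      by_cases hj : j = 0
      · rw [if_pos hj]; exact h1
      · rw [if_neg hj]; exact Submodule.zero_mem _)
    refine proj_mem h1 hmul hP hc ha fun b hb => ⟨?_, ?_⟩
    · have h2 := ha2 0 (by norm_num) b hb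
      rwa [if_pos rfl, one_mul, hQ0] at h2
    · have h2 := ha2 1 (by norm_num) b hb
      rwa [if_neg one_ne_zero, zero_mul, zero_mul, map_zero, hQ1] at h2
  · refine formRank_eq_sum Q S 2 c hsum hcne hmul (fun j hj => ?_) (fun j b hb => ?_) (fun i j => ?_)
    · rcases (by omega : j = 0 ∨ j = 1) with rfl | rfl
      · rw [hQ0]; exact h
      · rw [hQ1]; exact Submodule.sub_mem _ h1 h
    · rcases (by omega : j = 0 ∨ j = 1 ∨ 2 ≤ j) with rfl | rfl | hj
      · rw [hQ0]; exact hc b hb
      · rw [hQ1]; exact (Commute.one_left _).sub_left (hc b hb)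
      · rw [hQ2 j hj, zero_mul, mul_zero]
    · rcases (by omega : i = 0 ∨ i = 1 ∨ 2 ≤ i) with rfl | rfl | hi
      · rcases (by omega : j = 0 ∨ j = 1 ∨ 2 ≤ j) with rfl | rfl | hj
        · rw [if_pos rfl, hQ0, hP]
        · rw [if_neg (by norm_num), hQ0, hQ1, mul_sub, mul_one, hP, sub_self]
        · rw [if_neg (by omega), hQ2 j hj, mul_zero]
      · rcases (by omega : j = 0 ∨ j = 1 ∨ 2 ≤ j) with rfl | rfl | hj
        · rw [if_neg (by norm_num), hQ0, hQ1, sub_mul, one_mul, hP, sub_self]
        · rw [if_pos rfl, hQ1, hP']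
        · rw [if_neg (by omega), hQ2 j hj, mul_zero]
      · rw [hQ2 i hi, zero_mul, ite_self]

end Proj

end Pool.Agent.N164.NC
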