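import Pool.Agent.R484.NCb
import Pool.Agent.N164.NC.Lin

/-!
# Ranks of trace forms on the endomorphisms of an object of a rigid tensor category
-/

set_option autoImplicit false
set_option linter.unusedSectionVars false

open CategoryTheory Limits MonoidalCategory
open Pool.Agent.Y112.SR Pool.Agent.Y112.KD Pool.Agent.Y112.SC Pool.Agent.R484.NC Pool.Agent.R907

namespace Pool.Agent.N164.NC

universe v u w

section Ops

variable {C : Type u} [Category.{v} C] [Preadditive C] [Linear ℚ C] [MonoidalCategory C]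
  [SymmetricCategory C] {K : Type w} [Field K] (R : SuperRealisation C K)

/-- The trace of the realisation of an endomorphism on the odd part. -/
noncomputable def oddTrace {M : C} (f : M ⟶ M) : K := evenTrace R f - str R f

/-- The operators on the realisation of `M` given by the endomorphisms of `M`. -/
def ops (M : C) : Set (Module.End K (R.H.obj M)) := Set.range fun f : M ⟶ M => op R f

lemma oddTrace_eq {M : C} (f : M ⟶ M) : oddTrace R f =
    LinearMap.trace K (R.H.obj M) ((1 - evp R M) * op R f) := by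
  rw [oddTrace, evenTrace_eq, str_eq, sub_mul (evp R M), map_sub]
  abel

lemma ops_one (M : C) : (1 : Module.End K (R.H.obj M)) ∈ Submodule.span K (ops R M) :=
  Submodule.subset_span ⟨𝟙 M, Pool.Agent.R484.NC.op_id R M⟩

lemma ops_mul (M : C) : ∀ a ∈ Submodule.span K (ops R M), ∀ b ∈ Submodule.span K (ops R M),
    a * b ∈ Submodule.span K (ops R M) := by
  intro a ha b hb
  induction ha using Submodule.span_induction with
  | mem x hx =>
    obtain ⟨f, rfl⟩ := hx
    induction hb using Submodule.span_induction with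
    | mem y hy =>
      obtain ⟨g, rfl⟩ := hy
      exact Submodule.subset_span ⟨g ≫ f, Pool.Agent.R484.NC.op_comp R g f⟩
    | zero => rw [mul_zero]; exact Submodule.zero_mem _
    | add x y _ _ hx hy => rw [mul_add]; exact Submodule.add_mem _ hx hy
    | smul c x _ hx => rw [mul_smul_comm]; exact Submodule.smul_mem _ _ hx
  | zero => rw [zero_mul]; exact Submodule.zero_mem _
  | add x y _ _ hx hy => rw [add_mul]; exact Submodule.add_mem _ hx hy
  | smul c x _ hx => rw [smul_mul_assoc]; exact Submodule.smul_mem _ _ hx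

lemma ops_comm (M : C) : ∀ b ∈ Submodule.span K (ops R M), Commute (evp R M) b := by
  intro b hb
  induction hb using Submodule.span_induction with
  | mem x hx =>
    obtain ⟨f, rfl⟩ := hx
    exact (op_comm R f).symm
  | zero => exact Commute.zero_right _
  | add x y _ _ hx hy => exact hx.add_right hy
  | smul c x _ hx => exact hx.smul_right c

/-- The rank of a trace form in terms of endomorphisms. -/
lemma formRank_ops {M : C} {P : Module.End K (R.H.obj M)} (hP : ∀ f : M ⟶ M, Commute P (op R f)) :
    formRank P (ops R M) = rk (fun f g : M ⟶ M => LinearMap.trace K (R.H.obj M) (P * op R (f ≫ g))) := by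
  obtain ⟨φ, hφ⟩ : ∃ φ : (M ⟶ M) → ops R M, φ = fun f => ⟨op R f, ⟨f, rfl⟩⟩ := ⟨_, rfl⟩
  have hsur : Function.Surjective φ := by
    rintro ⟨_, f, rfl⟩
    exact ⟨f, by rw [hφ]⟩
  have hinj := LinearMap.funLeft_injective_of_surjective K K φ hsur
  have h1 : (Set.range fun f g : M ⟶ M => LinearMap.trace K (R.H.obj M) (P * op R (f ≫ g))) =
      (LinearMap.funLeft K K φ) '' (formFun P (ops R M) '' (ops R M)) := by
    have key : ∀ f : M ⟶ M, LinearMap.funLeft K K φ (formFun P (ops R M) (op R f)) =
        fun g => LinearMap.trace K (R.H.obj M) (P * op R (f ≫ g)) := by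
      intro f
      funext g
      rw [LinearMap.funLeft_apply, hφ, formFun, Pool.Agent.R484.NC.op_comp]
      change LinearMap.trace K (R.H.obj M) (op R f * op R g * P) = _
      rw [LinearMap.trace_mul_comm, ← mul_assoc, (hP f).eq, mul_assoc, LinearMap.trace_mul_comm, ← mul_assoc]
    ext u
    constructor
    · rintro ⟨f, rfl⟩
      exact ⟨_, ⟨op R f, ⟨f, rfl⟩, rfl⟩, key f⟩
    · rintro ⟨_, ⟨_, ⟨f, rfl⟩, rfl⟩, rfl⟩
      exact ⟨f, (key f).symm⟩
  rw [rk, h1, Submodule.span_image, formRank]
  exact LinearEquiv.finrank_eq (Submodule.equivMapOfInjective _ hinj _)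

end Ops

section Main

variable {C : Type u} [Category.{v} C] [Preadditive C] [Linear ℚ C] [MonoidalCategory C]
  [MonoidalPreadditive C] [MonoidalLinear ℚ C] [SymmetricCategory C] [RightRigidCategory C]
  {K : Type w} [Field K] (R : SuperRealisation C K)

/-- The trace form, as a linear map. -/
noncomputable def traceForm (hU : UnitQ C) (M : C) : (M ⟶ M) →ₗ[ℚ] ((M ⟶ M) → ℚ) where
  toFun f g := ctr hU (f ≫ g)
  map_add' f f' := by
    funext g
    rw [Preadditive.add_comp, ctr_add]
    rfl
  map_smul' q f := by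
    funext g
    rw [Linear.smul_comp, ctr_smul]
    rfl

/-- The numerically trivial endomorphisms. -/
def numTrivial (hU : UnitQ C) (M : C) : Submodule ℚ (M ⟶ M) where
  carrier := {f | NumZero hU f}
  add_mem' {a b} ha hb := fun g => by
    rw [Preadditive.add_comp, ctr_add, ha g, hb g, add_zero]
  zero_mem' := fun g => by
    have := ctr_smul hU (0 : ℚ) (𝟙 M)
    rw [zero_smul, zero_mul] at this
    rw [zero_comp, this]
  smul_mem' q a ha := fun g => by
    rw [Linear.smul_comp, ctr_smul, ha g, mul_zero]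

/-- The dimension of the algebra of endomorphisms modulo numerical equivalence. -/
noncomputable def numDim (hU : UnitQ C) (M : C) : ℕ := Module.finrank ℚ ((M ⟶ M) ⧸ numTrivial hU M)

lemma ker_traceForm (hU : UnitQ C) (M : C) : LinearMap.ker (traceForm hU M) = numTrivial hU M := by
  ext f
  rw [LinearMap.mem_ker]
  constructor
  · intro h g
    exact congrFun h g
  · intro h
    funext g
    exact h g

/-- The rank of the supertrace form. -/
lemma rk_str (hU : UnitQ C) (M : C) : formRank (evp R M - (1 - evp R M)) (ops R M) = numDim hU M := by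
  have hc := R_charZero R
  rw [formRank_ops R fun f => (((op_comm R f).sub_right
      ((Commute.one_right _).sub_right (op_comm R f)))).symm, numDim, ← ker_traceForm,
    ← rk_cast (K := K)]
  congr 1
  funext f g
  rw [← str_eq, ← ctr_eq R hU]
  rfl

lemma rk_even (M : C) : formRank (evp R M) (ops R M) = rk (fun f g : M ⟶ M => evenTrace R (f ≫ g)) := by
  rw [formRank_ops R fun f => (op_comm R f).symm]
  simp only [evenTrace_eq]

lemma rk_odd (M : C) : formRank (1 - evp R M) (ops R M) = rk (fun f g : M ⟶ M => oddTrace R (f ≫ g)) := by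
  rw [formRank_ops R fun f => (Commute.one_left _).sub_left (op_comm R f).symm]
  congr 1
  funext f g
  rw [oddTrace_eq]

/-- **Descent**: if the even projector is a combination of endomorphisms with coefficients in `K`, then it is given by an
endomorphism. -/
theorem cplus_of_span (hU : UnitQ C) {M : C} (h : evp R M ∈ Submodule.span K (ops R M)) : R.CPlus M := by
  have hc := R_charZero R
  have hfin := R.finite M
  rw [cplus_iff_op]
  obtain ⟨S, hS⟩ : ∃ S : Subalgebra K (Module.End K (R.H.obj M)),
      S = (Submodule.span K (ops R M)).toSubalgebra (ops_one R M)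
        (fun a b ha hb => ops_mul R M a ha b hb) := ⟨_, rfl⟩
  have hmemS : ∀ x, x ∈ S ↔ x ∈ Submodule.span K (ops R M) := by
    intro x
    rw [hS]
    rfl
  obtain ⟨A, hAd⟩ : ∃ A : Set S, A = {x : S | ∃ f : M ⟶ M, op R f = x.1} := ⟨_, rfl⟩
  have hA : ∀ x : S, x ∈ A ↔ ∃ f : M ⟶ M, op R f = x.1 := by
    intro x
    rw [hAd]
    rfl
  have hPS : evp R M ∈ S := (hmemS _).2 h
  have hmem : (⟨evp R M, hPS⟩ : S) ∈ A := by
    apply Pool.Agent.TH133.PW.central_idem_mem (K := K) (V := R.H.obj M) (A := A)
      ((hA _).2 ⟨𝟙 M, Pool.Agent.R484.NC.op_id R M⟩) ?_ ?_ ?_ ?_ S.val Subtype.val_injective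
    · exact Subtype.ext (evp_idem R M)
    · exact fun x => Subtype.ext (ops_comm R M x.1 ((hmemS _).1 x.2)).eq
    · intro x hx
      obtain ⟨f, hf⟩ := (hA x).1 hx
      refine ⟨ctr hU f, ?_⟩
      have e1 : S.val ((⟨evp R M, hPS⟩ : S) * x) = evp R M * x.1 := rfl
      have e2 : S.val ((1 - (⟨evp R M, hPS⟩ : S)) * x) = (1 - evp R M) * x.1 := rfl
      rw [ctr_eq R hU, str_eq, e1, e2, ← map_sub, ← sub_mul, hf]
    · intro x hx y hy
      obtain ⟨f, hf⟩ := (hA x).1 hx
      obtain ⟨g, hg⟩ := (hA y).1 hy
      exact (hA _).2 ⟨f + g, by rw [Pool.Agent.R484.NC.op_add, hf, hg]; rfl⟩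
    · intro q x hx
      obtain ⟨f, hf⟩ := (hA x).1 hx
      exact (hA _).2 ⟨q • f, by rw [Pool.Agent.R484.NC.op_smul, hf]; rfl⟩
    · intro x hx y hy
      obtain ⟨f, hf⟩ := (hA x).1 hx
      obtain ⟨g, hg⟩ := (hA y).1 hy
      exact (hA _).2 ⟨g ≫ f, by rw [Pool.Agent.R484.NC.op_comp, hf, hg]; rfl⟩
    · rw [eq_top_iff]
      rintro ⟨y, hy⟩ -
      have key : ∀ y (hy : y ∈ Submodule.span K (ops R M)),
          (⟨y, (hmemS y).2 hy⟩ : S) ∈ Submodule.span K A := by
        intro y hy
        induction hy using Submodule.span_induction with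
        | mem y hy =>
          obtain ⟨f, hf⟩ := hy
          exact Submodule.subset_span ((hA _).2 ⟨f, hf⟩)
        | zero => exact Submodule.zero_mem _
        | add x y _ _ h1 h2 => exact Submodule.add_mem _ h1 h2
        | smul a x _ h1 => exact Submodule.smul_mem _ a h1
      exact key y ((hmemS y).1 hy)
  exact (hA _).1 hmem

/-- **The rank criterion.** -/
theorem rank_criterion (hU : UnitQ C) (M : C) :
    numDim hU M ≤ rk (fun f g : M ⟶ M => evenTrace R (f ≫ g)) +
      rk (fun f g : M ⟶ M => oddTrace R (f ≫ g)) ∧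
    (numDim hU M = rk (fun f g : M ⟶ M => evenTrace R (f ≫ g)) +
      rk (fun f g : M ⟶ M => oddTrace R (f ≫ g)) ↔ R.CPlus M) := by
  have hc := R_charZero R
  have hfin := R.finite M
  obtain ⟨h1, h2⟩ := two_forms (K := K) (V := R.H.obj M) (ops_one R M) (ops_mul R M) (evp_idem R M)
    (ops_comm R M)
  rw [rk_str R hU, rk_even, rk_odd] at h1 h2
  refine ⟨h1, h2.trans ⟨cplus_of_span R hU, fun h => ?_⟩⟩
  obtain ⟨f, hf⟩ := (cplus_iff_op R M).1 h
  exact Submodule.subset_span ⟨f, hf⟩

/-- **The traces of the even projector.** -/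
theorem span_criterion (hU : UnitQ C) (M : C) : R.CPlus M ↔
    (fun g : M ⟶ M => (evenTrace R g, (0 : K))) ∈
      Submodule.span K (Set.range fun f g : M ⟶ M => (evenTrace R (f ≫ g), oddTrace R (f ≫ g))) := by
  have hc := R_charZero R
  have hfin := R.finite M
  have hP' : evp R M * (1 - evp R M) = 0 := by rw [mul_sub, mul_one, evp_idem, sub_self]
  have hP'' : (1 - evp R M) * evp R M = 0 := by rw [sub_mul, one_mul, evp_idem, sub_self]
  constructor
  · intro h
    obtain ⟨f, hf⟩ := (cplus_iff_op R M).1 h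
    apply Submodule.subset_span
    refine ⟨f, ?_⟩
    funext g
    change (evenTrace R (f ≫ g), oddTrace R (f ≫ g)) = (evenTrace R g, (0 : K))
    have e1 : evenTrace R (f ≫ g) = evenTrace R g := by
      rw [evenTrace_eq, evenTrace_eq, Pool.Agent.R484.NC.op_comp, hf, (op_comm R g).eq, ← mul_assoc, evp_idem]
    have e2 : oddTrace R (f ≫ g) = 0 := by
      rw [oddTrace_eq, Pool.Agent.R484.NC.op_comp, hf, (op_comm R g).eq, ← mul_assoc, hP'', zero_mul, map_zero]
    rw [e1, e2]
  · intro h
    -- the linear map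
    let Λ : Module.End K (R.H.obj M) →ₗ[K] ((M ⟶ M) → K × K) :=
      LinearMap.pi fun g => LinearMap.prod
        (LinearMap.trace K (R.H.obj M) ∘ₗ LinearMap.mulRight K (op R g * evp R M))
        (LinearMap.trace K (R.H.obj M) ∘ₗ LinearMap.mulRight K (op R g * (1 - evp R M)))
    have hΛ : ∀ a g, Λ a g = (LinearMap.trace K (R.H.obj M) (a * op R g * evp R M),
        LinearMap.trace K (R.H.obj M) (a * op R g * (1 - evp R M))) := by
      intro a g
      rw [mul_assoc, mul_assoc]
      rfl
    have hΛ2 : (Set.range fun f g : M ⟶ M => (evenTrace R (f ≫ g), oddTrace R (f ≫ g))) =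
        Λ '' ops R M := by
      have key : ∀ f : M ⟶ M, Λ (op R f) = fun g => (evenTrace R (f ≫ g), oddTrace R (f ≫ g)) := by
        intro f
        funext g
        rw [hΛ, evenTrace_eq, oddTrace_eq, Pool.Agent.R484.NC.op_comp]
        have e : ∀ P : Module.End K (R.H.obj M), (∀ f : M ⟶ M, Commute P (op R f)) →
            LinearMap.trace K (R.H.obj M) (op R f * op R g * P) =
            LinearMap.trace K (R.H.obj M) (P * (op R g * op R f)) := by
          intro P hP
          rw [LinearMap.trace_mul_comm, ← mul_assoc, (hP f).eq, mul_assoc, LinearMap.trace_mul_comm,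
            ← mul_assoc]
        rw [e _ fun f => (op_comm R f).symm,
          e _ fun f => (Commute.one_left _).sub_left (op_comm R f).symm]
      ext u
      constructor
      · rintro ⟨f, rfl⟩
        exact ⟨op R f, ⟨f, rfl⟩, key f⟩
      · rintro ⟨_, ⟨f, rfl⟩, rfl⟩
        exact ⟨f, (key f).symm⟩
    rw [hΛ2, Submodule.span_image] at h
    obtain ⟨a, ha, ha2⟩ := h
    apply cplus_of_span R hU
    refine proj_mem (ops_one R M) (ops_mul R M) (evp_idem R M) (ops_comm R M) ha ?_
    rintro _ ⟨g, rfl⟩
    have h3 := congrFun ha2 g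
    rw [hΛ] at h3
    obtain ⟨h4, h5⟩ := Prod.mk.inj h3
    refine ⟨?_, h5⟩
    rw [h4, evenTrace_eq, LinearMap.trace_mul_comm]

end Main

end Pool.Agent.N164.NC
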